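import Pool.Agent.Helper35.XT.Stm

/-! Package XB: further theorems in the models in which `π + e` is rational. -/

set_option autoImplicit false

namespace Pool.Agent.Helper70.XT

open Set Module Pool.Agent.Helper35.EM Pool.Agent.Helper56.EM Pool.Agent.Helper56.SA
  Pool.Agent.Helper35.XT

theorem key {t : ℕ → ℝ} (ht : FreeR fun n => (t n : ℂ)) (s : ℚ) {u Y : ℝ}
    (hun : (u : ℂ) ∉ M.closure ∅) (hu1 : (u : ℂ) ∈ M.closure (Fn t 1)) {w z : ℂ}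
    (hw : w ∈ M.closure (Fn t 1))
    (h : (w, z) ∈ PP ![1, t 1, t 0, u * t 1] ![t 0, s - t 0, t 2, Y] (s - t 0)) :
    ∃ (a b g : ℚ), w = a + b * (t 0 : ℂ) + g * (2 * Complex.I * (((s : ℝ) : ℂ) - t 0)) ∧
      z = a * ((Real.log (t 0) : ℝ) : ℂ) + b * ((Real.log (t 2) : ℝ) : ℂ) +
        g * (2 * (Real.pi : ℂ) * Complex.I) := by
  have hsc : ∀ A : Set ℂ, ((s : ℝ) : ℂ) ∈ M.closure A := fun A => by
    have := cl_ratCast A s
    exact_mod_cast this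
  have n0 : (t 0 : ℂ) ∈ M.closure (Fn t 1) := Fn_mem one_pos
  obtain ⟨α, γ, h1, h2⟩ := mem_PP h
  rw [Fin.sum_univ_four] at h1 h2
  have h1' : w = (α 0 : ℂ) * ((1 : ℝ) : ℂ) + (α 1 : ℂ) * (t 1 : ℂ) + (α 2 : ℂ) * (t 0 : ℂ) +
      (α 3 : ℂ) * ((u * t 1 : ℝ) : ℂ) + γ * (2 * Complex.I * ((s - t 0 : ℝ) : ℂ)) := h1
  have h2' : z = (α 0 : ℂ) * ((Real.log (t 0) : ℝ) : ℂ) +
      (α 1 : ℂ) * ((Real.log (s - t 0) : ℝ) : ℂ) + (α 2 : ℂ) * ((Real.log (t 2) : ℝ) : ℂ) +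
      (α 3 : ℂ) * ((Real.log Y : ℝ) : ℂ) + γ * (2 * (Real.pi : ℂ) * Complex.I) := h2
  rw [Complex.ofReal_one, Complex.ofReal_mul, Complex.ofReal_sub] at h1'
  have hq : ∀ (r : ℚ) (A : Set ℂ), (r : ℂ) ∈ M.closure A := fun r A => cl_ratCast A r
  have h2I : ∀ A : Set ℂ, (2 * Complex.I : ℂ) ∈ M.closure A := fun A => two_I_mem A
  obtain ⟨k1, k2⟩ := l2 (s := Fn t 1) (b := (t 1 : ℂ))
    (u := α 0 + α 2 * t 0 + γ * (2 * Complex.I) * (((s : ℝ) : ℂ) - t 0) - w)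
    (v := α 1 + α 3 * u) (Fn_not ht le_rfl)
    (cl_sub (cl_add (cl_add (hq _ _) (cl_mul (hq _ _) n0)) (cl_mul (cl_mul (hq _ _) (h2I _))
      (cl_sub (hsc _) n0))) hw)
    (cl_add (hq _ _) (cl_mul (hq _ _) hu1)) (by linear_combination -h1')
  obtain ⟨k3, k4⟩ := l2 hun (hq _ _) (hq _ _) k2
  refine ⟨α 0, α 2, γ, by linear_combination -k1, ?_⟩
  rw [h2', k3, k4]
  ring

theorem xb : S_XB := by
  intro t ht s u Y hp0 hu
  have hsc : ∀ A : Set ℂ, ((s : ℝ) : ℂ) ∈ M.closure A := fun A => by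
    have := cl_ratCast A s
    exact_mod_cast this
  have n0 : (t 0 : ℂ) ∈ M.closure (Fn t 1) := Fn_mem one_pos
  have hpc : ((s - t 0 : ℝ) : ℂ) = ((s : ℝ) : ℂ) - t 0 := Complex.ofReal_sub _ _
  have hpn : ((s - t 0 : ℝ) : ℂ) ∉ M.closure ∅ := by
    intro h
    apply Fn_not_empty ht 0
    have : (t 0 : ℂ) = ((s : ℝ) : ℂ) - ((s - t 0 : ℝ) : ℂ) := by rw [hpc]; ring
    rw [this]
    exact cl_sub (hsc _) h
  have hp1 : ((s - t 0 : ℝ) : ℂ) ∈ M.closure (Fn t 1) := by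
    rw [hpc]; exact cl_sub (hsc _) n0
  have hun : (u : ℂ) ∉ M.closure ∅ := by
    rcases hu with rfl | rfl
    · exact Fn_not_empty ht 0
    · exact hpn
  have hu1 : (u : ℂ) ∈ M.closure (Fn t 1) := by
    rcases hu with rfl | rfl
    · exact n0
    · exact hp1
  have hq : ∀ (r : ℚ) (A : Set ℂ), (r : ℂ) ∈ M.closure A := fun r A => cl_ratCast A r
  have h2I : ∀ A : Set ℂ, (2 * Complex.I : ℂ) ∈ M.closure A := fun A => two_I_mem A
  refine ⟨hpn, ?_, ?_, ?_⟩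
  · intro z hz
    obtain ⟨a, b, g, h1, -⟩ := key ht s hun hu1 (cl_pow 2 n0) hz
    have h2 := quad (s := ∅) (b := (t 0 : ℂ)) (Fn_not_empty ht 0) (α := 1)
      (β := -(b - g * (2 * Complex.I))) (γ := -(a + g * (2 * Complex.I) * ((s : ℝ) : ℂ)))
      (cl_one _) (cl_neg (cl_sub (hq _ _) (cl_mul (hq _ _) (h2I _))))
      (cl_neg (cl_add (hq _ _) (cl_mul (cl_mul (hq _ _) (h2I _)) (hsc _))))
      (by linear_combination h1)
    exact one_ne_zero h2.1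
  · intro z hz
    obtain ⟨a, b, g, h1, -⟩ := key ht s hun hu1 (cl_pow 2 hp1) hz
    rw [hpc] at h1
    have h2 := quad (s := ∅) (b := (t 0 : ℂ)) (Fn_not_empty ht 0) (α := 1)
      (β := -(2 * ((s : ℝ) : ℂ)) - (b - g * (2 * Complex.I)))
      (γ := ((s : ℝ) : ℂ) ^ 2 - (a + g * (2 * Complex.I) * ((s : ℝ) : ℂ)))
      (cl_one _) (cl_sub (cl_neg (cl_mul (cl_two _) (hsc _)))
        (cl_sub (hq _ _) (cl_mul (hq _ _) (h2I _))))
      (cl_sub (cl_pow 2 (hsc _)) (cl_add (hq _ _) (cl_mul (cl_mul (hq _ _) (h2I _)) (hsc _))))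
      (by linear_combination h1)
    exact one_ne_zero h2.1
  · intro n hn z hz hex
    have hr : ∀ A : Set ℂ, ((Real.sqrt n : ℝ) : ℂ) ∈ M.closure A := by
      intro A
      refine cl_of_pow (n := 2) two_ne_zero ?_
      have h1 : ((Real.sqrt n : ℝ) : ℂ) ^ 2 = ((n : ℚ) : ℂ) := by
        rw [← Complex.ofReal_pow, Real.sq_sqrt (Nat.cast_nonneg n)]
        simp
      rw [h1]
      exact cl_ratCast _ _
    obtain ⟨a, b, g, h1, h2⟩ := key ht s hun hu1 (cl_mul (hr _) hp1) hz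
    rw [hpc] at h1
    obtain ⟨-, k2⟩ := l2 (s := ∅) (b := (t 0 : ℂ))
      (u := a + g * (2 * Complex.I) * ((s : ℝ) : ℂ) - ((Real.sqrt n : ℝ) : ℂ) * ((s : ℝ) : ℂ))
      (v := b - g * (2 * Complex.I) + ((Real.sqrt n : ℝ) : ℂ)) (Fn_not_empty ht 0)
      (cl_sub (cl_add (hq _ _) (cl_mul (cl_mul (hq _ _) (h2I _)) (hsc _)))
        (cl_mul (hr _) (hsc _)))
      (cl_add (cl_sub (hq _ _) (cl_mul (hq _ _) (h2I _))) (hr _)) (by linear_combination -h1)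
    have hn0 : (0 : ℝ) < Real.sqrt n := Real.sqrt_pos.2 (by exact_mod_cast hn)
    have hb0 : b ≠ 0 := by
      rintro rfl
      have h3 := congrArg Complex.re k2
      simp at h3
      linarith
    have g0 : g = 0 := by
      have h3 := congrArg Complex.im k2
      simp at h3
      exact h3
    rw [g0, Rat.cast_zero, zero_mul, add_zero] at h2
    have h3 : Complex.exp z ∈ M.closure (Fn t 1) :=
      cl_le (s := {((s - t 0 : ℝ) : ℂ)}) (by rintro _ rfl; exact hp1) hex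
    have h4 : z = b • ((Real.log (t 2) : ℝ) : ℂ) + a • ((Real.log (t 0) : ℝ) : ℂ) := by
      rw [h2, Rat.smul_def, Rat.smul_def]
      ring
    rw [h4] at h3
    have h5 := cl_exp_of_smul_add hb0 h3 (cl_exp_smul a (by
      rw [exp_rlog (pos_t ht 0)]
      exact n0))
    rw [exp_rlog (pos_t ht 2)] at h5
    exact Fn_not ht (by norm_num) h5

end Pool.Agent.Helper70.XT
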